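import Pool.Agent.Q19.HO.Stm

/-! Project HO (helper19), job NUC: the nuclei of the octonions. -/

set_option autoImplicit false

namespace Pool.Agent.Q222.HO.NUC

open Pool.Agent.Q19.HO

variable {K : Type} [Field K]

/-- basis vectors -/
def e (i : Fin 8) : Oct K := fun j => if j = i then 1 else 0

lemma e_ap (i j : Fin 8) : (e i : Oct K) j = if j = i then 1 else 0 := rfl

theorem fin (a : Oct K) (h1 : a 1 = a 0) (h2 : a 2 = 0) (h3 : a 3 = 0) (h4 : a 4 = 0)
    (h5 : a 5 = 0) (h6 : a 6 = 0) (h7 : a 7 = 0) : ∃ r : K, a = r • 1 := by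
  refine ⟨a 0, oct_ext fun i => ?_⟩
  fin_cases i <;> simp [smul_ap, one0, one1, one2, one3, one4, one5, one6, one7, h1, h2, h3, h4,
    h5, h6, h7]

theorem t : S_NUC := by
  intro K _ _ a
  constructor
  · intro h
    have c : ∀ i j k : Fin 8, ((a * e i) * e j : Oct K) k = (a * (e i * e j) : Oct K) k :=
      fun i j k => congrFun (h (e i) (e j)) k
    have h1 := c 2 3 7
    have h4 := c 2 3 0
    have h6 := c 2 3 2
    have h5 := c 2 3 3
    have h2 := c 3 4 0
    have h7 := c 3 4 3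
    have h3 := c 4 2 0
    simp [mul0, mul1, mul2, mul3, mul4, mul5, mul6, mul7, e_ap] at h1 h2 h3 h4 h5 h6 h7
    exact fin a h1.symm h2.symm h3.symm h4.symm h5.symm h6 h7
  · intro h
    have c : ∀ i j k : Fin 8, ((e i * a) * e j : Oct K) k = (e i * (a * e j) : Oct K) k :=
      fun i j k => congrFun (h (e i) (e j)) k
    have h1 := c 2 3 7
    have h4 := c 2 3 0
    have h6 := c 2 3 2
    have h5 := c 2 3 3
    have h2 := c 3 4 0
    have h7 := c 3 4 3
    have h3 := c 4 2 0
    simp [mul0, mul1, mul2, mul3, mul4, mul5, mul6, mul7, e_ap] at h1 h2 h3 h4 h5 h6 h7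
    exact fin a h1 h2 h3 h4 h5 h6.symm h7.symm

end Pool.Agent.Q222.HO.NUC
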