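import Pool.Agent.Q19.HO.Stm

/-! Project HO (helper19), job ONE: the case `n = 1`. -/

set_option autoImplicit false

namespace Pool.Agent.Q222.HO.ONE

open Pool.Agent.Q19.HO

variable {K : Type} [Field K]

/-- the unit matrix -/
def E (K : Type) [Field K] : SymP 1 K := ⟨fun _ _ => 1, fun _ _ => by
  show star (1 : Oct K) = 1
  exact star_one _⟩

theorem span (h2 : (2 : K) ≠ 0) (X : SymP 1 K) : ∃ r : K, X = r • E K := by
  have hX : star ((X : Mat 1 K) 0 0) = (X : Mat 1 K) 0 0 := X.2 0 0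
  have key : ∀ x : K, -x = x → x = 0 := by
    intro x hx
    have : (2 : K) * x = 0 := by linear_combination -hx
    exact (mul_eq_zero.1 this).resolve_left h2
  refine ⟨(X : Mat 1 K) 0 0 0, Subtype.ext ?_⟩
  funext i j
  obtain rfl : i = 0 := Subsingleton.elim _ _
  obtain rfl : j = 0 := Subsingleton.elim _ _
  show (X : Mat 1 K) 0 0 = (X : Mat 1 K) 0 0 0 • (1 : Oct K)
  generalize (X : Mat 1 K) 0 0 = x at hX
  have e0 : x 1 = x 0 := congrFun hX 0
  have e2 : x 2 = 0 := key _ (congrFun hX 2)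
  have e3 : x 3 = 0 := key _ (congrFun hX 3)
  have e4 : x 4 = 0 := key _ (congrFun hX 4)
  have e5 : x 5 = 0 := key _ (congrFun hX 5)
  have e6 : x 6 = 0 := key _ (congrFun hX 6)
  have e7 : x 7 = 0 := key _ (congrFun hX 7)
  apply oct_ext
  intro i
  fin_cases i <;> simp [smul_ap, one0, one1, one2, one3, one4, one5, one6, one7, e0, e2, e3, e4,
    e5, e6, e7]

theorem jp_E (h2 : (2 : K) ≠ 0) (s : K) :
    jp ((s • E K : SymP 1 K) : Mat 1 K) ((s • E K : SymP 1 K) : Mat 1 K) =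
      (((s * s) • E K : SymP 1 K) : Mat 1 K) := by
  funext i j
  have h : (((s • E K : SymP 1 K) : Mat 1 K) * ((s • E K : SymP 1 K) : Mat 1 K)) i j =
      (s * s) • (1 : Oct K) := by
    rw [Matrix.mul_apply, Fin.sum_univ_one]
    show (s • (1 : Oct K)) * (s • (1 : Oct K)) = _
    rw [Pool.Agent.Q19.HO.smul_mul', Pool.Agent.Q19.HO.mul_smul', one_mul, smul_smul]
  show (2 : K)⁻¹ • (_ + _) = (s * s) • (1 : Oct K)
  rw [h, ← two_smul K ((s * s) • (1 : Oct K)), smul_smul, inv_mul_cancel₀ h2, one_smul]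

theorem t : S_ONE := by
  intro K _ h2 f hf
  obtain ⟨s, hs⟩ := span h2 (f (E K))
  have h1 := hf (E K) (E K) (E K) (by
    have := jp_E h2 (1 : K)
    simpa using this)
  rw [hs, jp_E h2 s] at h1
  have hE : (E K : SymP 1 K) ≠ 0 := by
    intro h
    have h4 : ((E K : SymP 1 K) : Mat 1 K) 0 0 0 = 0 := by rw [h]; rfl
    exact one_ne_zero (α := K) h4
  have h4 : s ≠ 0 := by
    rintro rfl
    rw [zero_smul] at hs
    exact hE ((LinearEquiv.map_eq_zero_iff f).1 hs)
  have h5 : s * s = s := by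
    have h7 : (s * s) * (1 : K) = s * 1 := congrFun (congrFun (congrFun h1 0) 0) 0
    simpa using h7
  have h6 : s = 1 := by
    have : s * (s - 1) = 0 := by linear_combination h5
    exact sub_eq_zero.1 ((mul_eq_zero.1 this).resolve_left h4)
  apply LinearEquiv.ext
  intro X
  obtain ⟨r, rfl⟩ := span h2 X
  rw [map_smul, hs, h6, one_smul]
  rfl

end Pool.Agent.Q222.HO.ONE
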